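import Pool.Agent.Lib.MP_7d5b89_lc.Fin

/-!
# Conjugacy of regular Toeplitz subshifts is Borel amenable

`T` is the set of Toeplitz subshifts of `{0,1}^ℤ` (orbit closures of non-periodic Toeplitz
sequences) with the Effros Borel structure `mS`, and `Conj` is topological conjugacy.

A position `n` is `p`-determined in `x` (`Det p x n`) if `x (n + k p) = x n` for all `k`.
`Reg` is the class of regular Toeplitz subshifts: the density of the positions which are not
`p`-determined has infimum `0` over `p`.  `win p x i` is the largest `m ≤ p` such that all
positions at distance less than `m` from `i` are `p`-determined, `avg a p x` is the mean of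
`exp (a * win p x i)` over `0 ≤ i < p`, and `ClassA` is the class of the Toeplitz subshifts for
which `avg a p x` is unbounded in `p` for every `a > 0` (long determined windows are not
exponentially rare).

`OneAmenableOn C`: there are Borel functions `lam n` on pairs of subshifts such that for
`X ∈ C` the function `lam n (X, ·)` is a finitely supported probability measure on the
conjugacy class of `X` in `C`, and for conjugate `X`, `Y` in `C` the total variation distance of
`lam n (X, ·)` and `lam n (Y, ·)` tends to `0`.

Result: `Reg ⊆ ClassA ⊆ T`, both classes are invariant under conjugacy, and conjugacy is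
1-amenable on `ClassA` (hence, by Connes-Feldman-Weiss, hyperfinite almost everywhere for every
Borel probability measure on `ClassA`).
-/

set_option autoImplicit false

open Pool.MP_7d5b89_lc.Amen

namespace Pool.Agent.Results.MP_7d5b89_lc.RegularToeplitzAmenable

theorem result :
    Reg ⊆ ClassA ∧ ClassA ⊆ T ∧
    (∀ X ∈ ClassA, ∀ Z ∈ T, Conj X Z → Z ∈ ClassA) ∧
    (∀ X ∈ Reg, ∀ Z ∈ T, Conj X Z → Z ∈ Reg) ∧
    OneAmenableOn ClassA :=
  ⟨fin_main.1, fin_main.2.1, fin_main.2.2.1, fin_main.2.2.2.1, fin_main.2.2.2.2.2.2⟩

end Pool.Agent.Results.MP_7d5b89_lc.RegularToeplitzAmenable
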